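import Mathlib

/-!
# Maximum degree of Ramsey-critical graphs (MP_76db9d_co): traces on a maximum independent set
-/

namespace Pool.Agent.Helper22.RD

open Finset

variable {V : Type*} [Fintype V] [DecidableEq V] (G : SimpleGraph V) [DecidableRel G.Adj]

/-- Weighted form of the theorem of Erdos and Szekeres. -/
theorem esz (p q : ℝ) (hp : 0 < p) (hq : 0 < q) (hpq : p + q = 1) :
    ∀ (m : ℕ) (A : Finset V) (w s : ℕ), A.card = m →
      (∀ K : Finset V, K ⊆ A → (∀ x ∈ K, ∀ y ∈ K, x ≠ y → G.Adj x y) → K.card ≤ w) →
      (∀ J : Finset V, J ⊆ A → (∀ x ∈ J, ∀ y ∈ J, x ≠ y → ¬ G.Adj x y) → J.card ≤ s) →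
      (A.card : ℝ) + 1 ≤ (1 / p) ^ w * (1 / q) ^ s := by
  have hp1 : p ≤ 1 := by linarith
  have hq1 : q ≤ 1 := by linarith
  have hP : 1 ≤ 1 / p := one_le_one_div hp hp1
  have hQ : 1 ≤ 1 / q := one_le_one_div hq hq1
  intro m
  induction m using Nat.strong_induction_on with
  | _ m ih =>
    intro A w s hA hK hJ
    rcases A.eq_empty_or_nonempty with rfl | ⟨v, hv⟩
    · rw [Finset.card_empty, Nat.cast_zero, zero_add]
      exact one_le_mul_of_one_le_of_one_le (one_le_pow₀ hP) (one_le_pow₀ hQ)
    · set N := A.filter (fun x => G.Adj v x) with hN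
      set M := A.filter (fun x => x ≠ v ∧ ¬ G.Adj v x) with hM
      have hsplit : A.card = N.card + M.card + 1 := by
        have h1 : A = insert v (N ∪ M) := by
          ext x
          simp only [hN, hM, Finset.mem_insert, Finset.mem_union, Finset.mem_filter]
          constructor
          · intro hx
            by_cases hxv : x = v
            · exact Or.inl hxv
            · by_cases hadj : G.Adj v x
              · exact Or.inr (Or.inl ⟨hx, hadj⟩)
              · exact Or.inr (Or.inr ⟨hx, hxv, hadj⟩)
          · rintro (rfl | ⟨hx, _⟩ | ⟨hx, _⟩)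
            · exact hv
            · exact hx
            · exact hx
        have h2 : v ∉ N ∪ M := by
          simp [hN, hM]
        have h3 : Disjoint N M := by
          rw [Finset.disjoint_left]
          intro x hx hx'
          rw [hN, Finset.mem_filter] at hx
          rw [hM, Finset.mem_filter] at hx'
          exact hx'.2.2 hx.2
        conv_lhs => rw [h1]
        rw [Finset.card_insert_of_notMem h2, Finset.card_union_of_disjoint h3]
      have hNA : N ⊆ A := Finset.filter_subset _ _
      have hMA : M ⊆ A := Finset.filter_subset _ _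
      have hw : 1 ≤ w := by
        have := hK {v} (by simpa using hv) (by
          intro x hx y hy hxy
          rw [Finset.mem_singleton] at hx hy
          exact absurd (hx.trans hy.symm) hxy)
        simpa using this
      have hs : 1 ≤ s := by
        have := hJ {v} (by simpa using hv) (by
          intro x hx y hy hxy
          rw [Finset.mem_singleton] at hx hy
          exact absurd (hx.trans hy.symm) hxy)
        simpa using this
      obtain ⟨w', rfl⟩ := Nat.exists_eq_add_of_le' hw
      obtain ⟨s', rfl⟩ := Nat.exists_eq_add_of_le' hs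
      have i1 := ih N.card (by omega) N w' (s' + 1) rfl (by
        intro K hKN hKc
        have hvK : v ∉ K := by
          intro h
          have := hKN h
          simp [hN] at this
        have := hK (insert v K) (by
          rw [Finset.insert_subset_iff]
          exact ⟨hv, hKN.trans hNA⟩) (by
          intro x hx y hy hxy
          rw [Finset.mem_insert] at hx hy
          rcases hx with rfl | hx
          · rcases hy with rfl | hy
            · exact absurd rfl hxy
            · exact (Finset.mem_filter.1 (hKN hy)).2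
          · rcases hy with rfl | hy
            · exact ((Finset.mem_filter.1 (hKN hx)).2).symm
            · exact hKc x hx y hy hxy)
        rw [Finset.card_insert_of_notMem hvK] at this
        omega) (fun J hJN hJc => hJ J (hJN.trans hNA) hJc)
      have i2 := ih M.card (by omega) M (w' + 1) s' rfl
        (fun K hKM hKc => hK K (hKM.trans hMA) hKc) (by
        intro J hJM hJc
        have hvJ : v ∉ J := by
          intro h
          have := hJM h
          simp [hM] at this
        have := hJ (insert v J) (by
          rw [Finset.insert_subset_iff]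
          exact ⟨hv, hJM.trans hMA⟩) (by
          intro x hx y hy hxy
          rw [Finset.mem_insert] at hx hy
          rcases hx with rfl | hx
          · rcases hy with rfl | hy
            · exact absurd rfl hxy
            · exact (Finset.mem_filter.1 (hJM hy)).2.2
          · rcases hy with rfl | hy
            · intro h
              exact (Finset.mem_filter.1 (hJM hx)).2.2 h.symm
            · exact hJc x hx y hy hxy)
        rw [Finset.card_insert_of_notMem hvJ] at this
        omega)
      have hsum : (A.card : ℝ) + 1 = ((N.card : ℝ) + 1) + ((M.card : ℝ) + 1) := by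
        rw [hsplit]
        push_cast
        ring
      rw [hsum]
      have key : (1 / p) ^ w' * (1 / q) ^ (s' + 1) + (1 / p) ^ (w' + 1) * (1 / q) ^ s' =
          (1 / p) ^ (w' + 1) * (1 / q) ^ (s' + 1) * (p + q) := by
        have hpp : 1 / p * p = 1 := by field_simp
        have hqq : 1 / q * q = 1 := by field_simp
        rw [pow_succ (1 / p) w', pow_succ (1 / q) s']
        linear_combination (-((1 / p) ^ w' * (1 / q) ^ s' * (1 / q))) * hpp -
          ((1 / p) ^ w' * (1 / q) ^ s' * (1 / p)) * hqq
      rw [hpq, mul_one] at key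
      linarith

/-- The weights of the supersets of `U`. -/
theorem weight_sum (S U : Finset V) (hU : U ⊆ S) (θ : ℝ) :
    ∑ T ∈ S.powerset.filter (fun T => U ⊆ T), θ ^ T.card * (1 - θ) ^ (S.card - T.card) =
      θ ^ U.card := by
  have h1 : ∑ T ∈ S.powerset.filter (fun T => U ⊆ T), θ ^ T.card * (1 - θ) ^ (S.card - T.card) =
      ∑ R ∈ (S \ U).powerset, θ ^ U.card * (θ ^ R.card * (1 - θ) ^ ((S \ U).card - R.card)) := by
    refine Finset.sum_bij' (fun T _ => T \ U) (fun R _ => R ∪ U) ?_ ?_ ?_ ?_ ?_
    · intro T hT
      rw [Finset.mem_filter, Finset.mem_powerset] at hT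
      rw [Finset.mem_powerset]
      exact Finset.sdiff_subset_sdiff hT.1 (Finset.Subset.refl _)
    · intro R hR
      rw [Finset.mem_powerset] at hR
      rw [Finset.mem_filter, Finset.mem_powerset]
      exact ⟨Finset.union_subset (hR.trans Finset.sdiff_subset) hU, Finset.subset_union_right⟩
    · intro T hT
      rw [Finset.mem_filter] at hT
      exact Finset.sdiff_union_of_subset hT.2
    · intro R hR
      rw [Finset.mem_powerset] at hR
      rw [Finset.union_sdiff_right]
      rw [Finset.sdiff_eq_self_iff_disjoint]
      rw [Finset.disjoint_left]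
      intro x hx hxU
      exact (Finset.mem_sdiff.1 (hR hx)).2 hxU
    · intro T hT
      rw [Finset.mem_filter, Finset.mem_powerset] at hT
      have c1 := Finset.card_sdiff_add_card_eq_card hT.2
      have c2 := Finset.card_sdiff_add_card_eq_card hU
      have c3 := Finset.card_le_card hT.1
      rw [← mul_assoc, ← pow_add]
      congr 2
      · omega
      · omega
  rw [h1, ← Finset.mul_sum, Finset.sum_pow_mul_eq_add_pow]
  have : θ + (1 - θ) = 1 := by ring
  rw [this, one_pow, mul_one]

/-- The closed trace of `v` on `S`. -/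
def tr (S : Finset V) (v : V) : Finset V := S.filter (fun u => u = v ∨ G.Adj v u)

/-- The refined inequality: traces on a maximum independent set. -/
theorem trace_ineq (p q : ℝ) (hp : 0 < p) (hq : 0 < q) (hpq : p + q = 1) (θ : ℝ) (hθ0 : 0 ≤ θ)
    (hθ1 : θ ≤ 1) (a : ℕ)
    (hK : ∀ K : Finset V, (∀ x ∈ K, ∀ y ∈ K, x ≠ y → G.Adj x y) → K.card ≤ a)
    (S : Finset V) (hS : ∀ x ∈ S, ∀ y ∈ S, x ≠ y → ¬ G.Adj x y)
    (hmax : ∀ J : Finset V, (∀ x ∈ J, ∀ y ∈ J, x ≠ y → ¬ G.Adj x y) → J.card ≤ S.card) :
    (∑ v : V, θ ^ (tr G S v).card) + 1 ≤ (1 / p) ^ a * (1 - θ + θ / q) ^ S.card := by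
  have hw0 : ∀ T : Finset V, 0 ≤ θ ^ T.card * (1 - θ) ^ (S.card - T.card) := fun T =>
    mul_nonneg (pow_nonneg hθ0 _) (pow_nonneg (by linarith) _)
  have hA : ∀ T ∈ S.powerset,
      (((Finset.univ.filter (fun v => tr G S v ⊆ T)).card : ℝ) + 1) ≤
        (1 / p) ^ a * (1 / q) ^ T.card := by
    intro T hT
    rw [Finset.mem_powerset] at hT
    refine esz G p q hp hq hpq _ _ a T.card rfl (fun K _ hKc => hK K hKc) ?_
    intro J hJA hJc
    have hdis : Disjoint (S \ T) J := by
      rw [Finset.disjoint_left]
      intro x hx hxJ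
      rw [Finset.mem_sdiff] at hx
      have h1 := (Finset.mem_filter.1 (hJA hxJ)).2
      exact hx.2 (h1 (by
        unfold tr
        rw [Finset.mem_filter]
        exact ⟨hx.1, Or.inl rfl⟩))
    have hcross : ∀ x ∈ S \ T, ∀ y ∈ J, ¬ G.Adj y x := by
      intro x hx y hy hadj
      rw [Finset.mem_sdiff] at hx
      have h1 := (Finset.mem_filter.1 (hJA hy)).2
      exact hx.2 (h1 (by
        unfold tr
        rw [Finset.mem_filter]
        exact ⟨hx.1, Or.inr hadj⟩))
    have h2 := hmax ((S \ T) ∪ J) (by
      intro x hx y hy hxy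
      rw [Finset.mem_union] at hx hy
      rcases hx with hx | hx
      · rcases hy with hy | hy
        · exact hS x (Finset.mem_sdiff.1 hx).1 y (Finset.mem_sdiff.1 hy).1 hxy
        · exact fun h => hcross x hx y hy h.symm
      · rcases hy with hy | hy
        · exact hcross y hy x hx
        · exact hJc x hx y hy hxy)
    rw [Finset.card_union_of_disjoint hdis] at h2
    have h3 := Finset.card_sdiff_add_card_eq_card hT
    omega
  have e1 : (∑ v : V, θ ^ (tr G S v).card) + 1 =
      ∑ T ∈ S.powerset, (θ ^ T.card * (1 - θ) ^ (S.card - T.card)) *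
        (((Finset.univ.filter (fun v => tr G S v ⊆ T)).card : ℝ) + 1) := by
    simp_rw [mul_add, mul_one]
    rw [Finset.sum_add_distrib]
    congr 1
    · have h1 : ∀ v : V, θ ^ (tr G S v).card = ∑ T ∈ S.powerset,
          if tr G S v ⊆ T then θ ^ T.card * (1 - θ) ^ (S.card - T.card) else 0 := by
        intro v
        rw [← Finset.sum_filter, weight_sum S (tr G S v) (Finset.filter_subset _ _) θ]
      simp_rw [h1]
      rw [Finset.sum_comm]
      refine Finset.sum_congr rfl fun T _ => ?_
      rw [← Finset.sum_filter, Finset.sum_const, nsmul_eq_mul, mul_comm]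
    · have := weight_sum S ∅ (Finset.empty_subset _) θ
      simpa using this.symm
  rw [e1]
  calc _ ≤ ∑ T ∈ S.powerset, (θ ^ T.card * (1 - θ) ^ (S.card - T.card)) *
        ((1 / p) ^ a * (1 / q) ^ T.card) :=
        Finset.sum_le_sum fun T hT => mul_le_mul_of_nonneg_left (hA T hT) (hw0 T)
    _ = (1 / p) ^ a * ∑ T ∈ S.powerset, (θ / q) ^ T.card * (1 - θ) ^ (S.card - T.card) := by
        rw [Finset.mul_sum]
        refine Finset.sum_congr rfl fun T _ => ?_
        rw [div_eq_mul_one_div θ q, mul_pow]
        ring
    _ = (1 / p) ^ a * (1 - θ + θ / q) ^ S.card := by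
        rw [Finset.sum_pow_mul_eq_add_pow]
        congr 2
        ring

/-- The sum of the sizes of the traces. -/
theorem sum_tr (S : Finset V) (D : ℝ) (hD : ∀ v, ((G.neighborFinset v).card : ℝ) + 1 ≤ D) :
    ∑ v : V, ((tr G S v).card : ℝ) ≤ S.card * D := by
  have h1 : ∑ v : V, ((tr G S v).card : ℝ) =
      ∑ u ∈ S, (((Finset.univ.filter (fun v => u = v ∨ G.Adj v u)).card : ℕ) : ℝ) := by
    have : ∀ v, ((tr G S v).card : ℝ) = ∑ u ∈ S, if u = v ∨ G.Adj v u then (1 : ℝ) else 0 := by
      intro v
      unfold tr
      rw [Finset.card_filter]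
      push_cast
      rfl
    simp_rw [this]
    rw [Finset.sum_comm]
    refine Finset.sum_congr rfl fun u _ => ?_
    rw [Finset.card_filter]
    push_cast
    rfl
  rw [h1]
  calc _ ≤ ∑ _u ∈ S, D := by
        refine Finset.sum_le_sum fun u _ => ?_
        refine le_trans ?_ (hD u)
        have h2 : Finset.univ.filter (fun v => u = v ∨ G.Adj v u) ⊆
            insert u (G.neighborFinset u) := by
          intro v hv
          rw [Finset.mem_filter] at hv
          rw [Finset.mem_insert, SimpleGraph.mem_neighborFinset]
          rcases hv.2 with h | h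
          · exact Or.inl h.symm
          · exact Or.inr h.symm
        have h3 := (Finset.card_le_card h2).trans (Finset.card_insert_le _ _)
        exact_mod_cast h3
    _ = S.card * D := by rw [Finset.sum_const, nsmul_eq_mul]

/-- Convexity of the exponential. -/
theorem exp_sum_ge {ι : Type*} [Fintype ι] (t : ι → ℝ) (c lam μ : ℝ) (hl : 0 ≤ lam)
    (hc : c = Fintype.card ι) (hsum : ∑ i, t i ≤ c * μ) :
    c * Real.exp (-(lam * μ)) ≤ ∑ i, Real.exp (-(lam * t i)) := by
  have h1 : ∀ i, Real.exp (-(lam * μ)) * (1 + lam * (μ - t i)) ≤ Real.exp (-(lam * t i)) := by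
    intro i
    have e : Real.exp (-(lam * t i)) = Real.exp (-(lam * μ)) * Real.exp (lam * (μ - t i)) := by
      rw [← Real.exp_add]
      congr 1
      ring
    rw [e]
    refine mul_le_mul_of_nonneg_left ?_ (Real.exp_pos _).le
    have := Real.add_one_le_exp (lam * (μ - t i))
    linarith
  refine le_trans ?_ (Finset.sum_le_sum fun i _ => h1 i)
  rw [← Finset.mul_sum]
  have e2 : ∑ i : ι, (1 + lam * (μ - t i)) = c + lam * (c * μ - ∑ i, t i) := by
    rw [Finset.sum_add_distrib, ← Finset.mul_sum, Finset.sum_sub_distrib]
    simp [hc]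
  rw [e2]
  have h3 : 0 ≤ lam * (c * μ - ∑ i, t i) := mul_nonneg hl (by linarith)
  have h4 := Real.exp_pos (-(lam * μ))
  nlinarith

end Pool.Agent.Helper22.RD
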