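import Mathlib
import Pool.Agent.Helper22.ARLift

/-!
# Maximum degree of Ramsey-critical graphs (MP_76db9d_co): the lower bound of Erdos
-/

namespace Pool.Agent.Helper22.RD

open Finset Pool.Agent.Helper22.AR

/-- The graph of `ω`. -/
def gr {m : ℕ} (ω : Sym2 (Fin m) → Bool) : SimpleGraph (Fin m) where
  Adj x y := x ≠ y ∧ ω s(x, y) = true
  symm := ⟨by
    rintro x y ⟨h1, h2⟩
    exact ⟨h1.symm, by rw [Sym2.eq_swap]; exact h2⟩⟩
  loopless := ⟨fun x h => h.1 rfl⟩

theorem fact_ineq (k : ℕ) (hk : 3 ≤ k) : 2 ^ (k + 2) < (k.factorial) ^ 2 := by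
  induction k, hk using Nat.le_induction with
  | base => decide
  | succ k hk ih =>
    rw [Nat.factorial_succ, mul_pow, pow_succ 2 (k + 1 + 1)]
    have h1 : 2 ≤ (k + 1) ^ 2 := by nlinarith
    have h2 : 2 ^ (k + 1 + 1) < k.factorial ^ 2 := ih
    calc 2 ^ (k + 1 + 1) * 2 < k.factorial ^ 2 * 2 := by omega
      _ ≤ k.factorial ^ 2 * (k + 1) ^ 2 := Nat.mul_le_mul_left _ h1
      _ = (k + 1) ^ 2 * k.factorial ^ 2 := by ring

theorem choose_ineq (m k : ℕ) (hk : 3 ≤ k) (hm : m ^ 2 ≤ 2 ^ k) :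
    2 * m.choose k < 2 ^ (k.choose 2) := by
  by_contra hc
  push Not at hc
  have h1 : k.factorial * m.choose k ≤ m ^ k := by
    rw [← Nat.descFactorial_eq_factorial_mul_choose]
    exact Nat.descFactorial_le_pow m k
  have h2 : (k.factorial * m.choose k) ^ 2 ≤ 2 ^ (k * k) := by
    calc (k.factorial * m.choose k) ^ 2 ≤ (m ^ k) ^ 2 := Nat.pow_le_pow_left h1 2
      _ = (m ^ 2) ^ k := by rw [← pow_mul, ← pow_mul, mul_comm]
      _ ≤ (2 ^ k) ^ k := Nat.pow_le_pow_left hm k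
      _ = 2 ^ (k * k) := by rw [← pow_mul]
  have h3 : (2 ^ (k.choose 2)) ^ 2 ≤ (2 * m.choose k) ^ 2 := Nat.pow_le_pow_left hc 2
  have h4 : (2 ^ (k.choose 2)) ^ 2 * 2 ^ k = 2 ^ (k * k) := by
    rw [← pow_mul, ← pow_add]
    congr 1
    obtain ⟨j, rfl⟩ : ∃ j, k = j + 2 := ⟨k - 2, by omega⟩
    rw [Nat.choose_two_right]
    have h := Nat.div_mul_cancel (Nat.even_mul_pred_self (j + 2)).two_dvd
    rw [h]
    have : j + 2 - 1 = j + 1 := by omega
    rw [this]
    ring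
  have h5 := fact_ineq k hk
  have hp : 0 < 2 ^ (k * k) := by positivity
  -- (k!)^2 * 2^{2C} ≤ 4 * 2^{k k}
  have h6 : k.factorial ^ 2 * (2 ^ (k.choose 2)) ^ 2 ≤ 4 * 2 ^ (k * k) := by
    calc k.factorial ^ 2 * (2 ^ (k.choose 2)) ^ 2
        ≤ k.factorial ^ 2 * (2 * m.choose k) ^ 2 := Nat.mul_le_mul_left _ h3
      _ = 4 * (k.factorial * m.choose k) ^ 2 := by ring
      _ ≤ 4 * 2 ^ (k * k) := Nat.mul_le_mul_left _ h2
  have h7 : k.factorial ^ 2 * 2 ^ (k * k) ≤ 2 ^ (k + 2) * 2 ^ (k * k) := by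
    calc k.factorial ^ 2 * 2 ^ (k * k)
        = (k.factorial ^ 2 * (2 ^ (k.choose 2)) ^ 2) * 2 ^ k := by rw [← h4]; ring
      _ ≤ (4 * 2 ^ (k * k)) * 2 ^ k := Nat.mul_le_mul_right _ h6
      _ = 2 ^ (k + 2) * 2 ^ (k * k) := by ring
  have h8 := Nat.le_of_mul_le_mul_right h7 hp
  omega

/-- The lower bound of Erdos for diagonal Ramsey numbers. -/
theorem erdos_lower (m k : ℕ) (hk : 3 ≤ k) (hm : m ^ 2 ≤ 2 ^ k) :
    ∃ G : SimpleGraph (Fin m), G.CliqueFree k ∧ Gᶜ.CliqueFree k := by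
  classical
  set Bad : Finset (Fin m) × Bool → Finset (Sym2 (Fin m) → Bool) := fun z =>
    Finset.univ.filter (fun ω => ∀ e ∈ edg z.1, ω e = z.2) with hBad
  set I : Finset (Finset (Fin m) × Bool) :=
    (Finset.univ.powersetCard k) ×ˢ (Finset.univ : Finset Bool) with hI
  have hIc : I.card = m.choose k * 2 := by
    rw [hI, Finset.card_product, Finset.card_powersetCard, Finset.card_univ, Fintype.card_fin,
      Finset.card_univ, Fintype.card_bool]
  have hcard : ∀ z ∈ I, (Bad z).card * 2 ^ (k.choose 2) = Fintype.card (Sym2 (Fin m) → Bool) := by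
    rintro ⟨S, c⟩ hz
    rw [hI, Finset.mem_product, Finset.mem_powersetCard] at hz
    have h := card_prescribed (edg S) (fun _ => c)
    rw [card_edg, hz.1.2] at h
    exact h
  have hlt : (I.biUnion Bad).card < Fintype.card (Sym2 (Fin m) → Bool) := by
    have hΩ : 0 < Fintype.card (Sym2 (Fin m) → Bool) := Fintype.card_pos
    have h1 : (I.biUnion Bad).card * 2 ^ (k.choose 2) ≤
        (m.choose k * 2) * Fintype.card (Sym2 (Fin m) → Bool) := by
      calc (I.biUnion Bad).card * 2 ^ (k.choose 2)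
          ≤ (∑ z ∈ I, (Bad z).card) * 2 ^ (k.choose 2) :=
            Nat.mul_le_mul_right _ Finset.card_biUnion_le
        _ = ∑ z ∈ I, (Bad z).card * 2 ^ (k.choose 2) := by rw [Finset.sum_mul]
        _ = ∑ _z ∈ I, Fintype.card (Sym2 (Fin m) → Bool) := Finset.sum_congr rfl hcard
        _ = (m.choose k * 2) * Fintype.card (Sym2 (Fin m) → Bool) := by
            rw [Finset.sum_const, hIc, smul_eq_mul]
    have h2 := choose_ineq m k hk hm
    have h3 : (m.choose k * 2) * Fintype.card (Sym2 (Fin m) → Bool) <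
        2 ^ (k.choose 2) * Fintype.card (Sym2 (Fin m) → Bool) :=
      Nat.mul_lt_mul_of_pos_right (by omega) hΩ
    have h4 := lt_of_le_of_lt h1 h3
    rw [mul_comm (2 ^ (k.choose 2))] at h4
    exact lt_of_mul_lt_mul_right h4 (Nat.zero_le _)
  obtain ⟨ω, hω⟩ : ∃ ω, ω ∉ I.biUnion Bad := by
    by_contra hc
    push Not at hc
    have : I.biUnion Bad = Finset.univ := Finset.eq_univ_iff_forall.2 hc
    rw [this, Finset.card_univ] at hlt
    exact lt_irrefl _ hlt
  have hgood : ∀ S : Finset (Fin m), S.card = k → ∀ c : Bool, ¬ ∀ e ∈ edg S, ω e = c := by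
    intro S hS c hc
    refine hω ?_
    rw [Finset.mem_biUnion]
    refine ⟨(S, c), ?_, ?_⟩
    · rw [hI, Finset.mem_product, Finset.mem_powersetCard]
      exact ⟨⟨Finset.subset_univ _, hS⟩, Finset.mem_univ _⟩
    · rw [hBad]
      simp only [Finset.mem_filter, Finset.mem_univ, true_and]
      exact hc
  refine ⟨gr ω, ?_, ?_⟩
  · intro K hK
    rw [SimpleGraph.isNClique_iff, SimpleGraph.isClique_iff] at hK
    refine hgood K hK.2 true ?_
    intro e he
    obtain ⟨v, hv, w, hw, hvw, rfl⟩ := mem_edg_iff.1 he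
    exact (hK.1 hv hw hvw).2
  · intro K hK
    rw [SimpleGraph.isNClique_iff, SimpleGraph.isClique_iff] at hK
    refine hgood K hK.2 false ?_
    intro e he
    obtain ⟨v, hv, w, hw, hvw, rfl⟩ := mem_edg_iff.1 he
    have h1 := hK.1 hv hw hvw
    rw [SimpleGraph.compl_adj] at h1
    have h2 : ¬ ω s(v, w) = true := fun h => h1.2 ⟨hvw, h⟩
    simpa using h2

end Pool.Agent.Helper22.RD
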