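import Mathlib
import Pool.Agent.Helper22.RD.Basic
import Pool.Agent.Helper22.RD.Lower

/-!
# Maximum degree of Ramsey-critical graphs (MP_76db9d_co): assembly
-/

namespace Pool.Agent.Helper22.RD

open Finset

/-- The numbers `n` such that every graph on `n` vertices has a clique of size `k + 1` or an
independent set of size `k`. -/
abbrev RSet (k : ℕ) : Set ℕ :=
  {n : ℕ | ∀ G : SimpleGraph (Fin n), ¬ G.CliqueFree (k + 1) ∨ ¬ Gᶜ.CliqueFree k}

theorem lt_of_graph {k N m : ℕ} (hN : IsLeast (RSet k) N) (G : SimpleGraph (Fin m))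
    (h1 : G.CliqueFree (k + 1)) (h2 : Gᶜ.CliqueFree k) : m < N := by
  by_contra hc
  push Not at hc
  have f : Fin N ↪ Fin m := Fin.castLEEmb hc
  have e : (G.comap f)ᶜ = Gᶜ.comap f := by
    ext u v
    simp only [SimpleGraph.compl_adj, SimpleGraph.comap_adj]
    constructor
    · rintro ⟨a, b⟩
      exact ⟨fun h => a (f.injective h), b⟩
    · rintro ⟨a, b⟩
      exact ⟨fun h => a (h ▸ rfl), b⟩
  rcases hN.1 (G.comap f) with h | h
  · exact h (h1.comap ⟨(SimpleGraph.Embedding.comap f G).toCopy⟩)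
  · rw [e] at h
    exact h (h2.comap ⟨(SimpleGraph.Embedding.comap f Gᶜ).toCopy⟩)

theorem k_lt {k N : ℕ} (hk : 2 ≤ k) (hN : IsLeast (RSet k) N) : k < N := by
  refine lt_of_graph hN (⊤ : SimpleGraph (Fin k)) ?_ ?_
  · exact SimpleGraph.cliqueFree_of_card_lt (by simp)
  · rw [compl_top]
    exact (SimpleGraph.cliqueFree_bot hk)

theorem sq_gt {k N : ℕ} (hk : 3 ≤ k) (hN : IsLeast (RSet k) N) : 2 ^ k < N ^ 2 := by
  by_contra hc
  push Not at hc
  obtain ⟨G, h1, h2⟩ := erdos_lower N k hk hc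
  exact lt_irrefl _ (lt_of_graph hN G (h1.mono (Nat.le_succ k)) h2)

/-- Cliques as finite sets. -/
theorem card_le_of_cliqueFree {V : Type*} {G : SimpleGraph V} {k : ℕ} (h : G.CliqueFree (k + 1))
    (K : Finset V) (hK : ∀ x ∈ K, ∀ y ∈ K, x ≠ y → G.Adj x y) : K.card ≤ k := by
  classical
  by_contra hc
  push Not at hc
  obtain ⟨K', hK', hc'⟩ := Finset.exists_subset_card_eq hc
  refine h K' ?_
  rw [SimpleGraph.isNClique_iff, SimpleGraph.isClique_iff]
  exact ⟨fun x hx y hy hxy => hK x (hK' hx) y (hK' hy) hxy, hc'⟩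

theorem indep_card_le {V : Type*} {G : SimpleGraph V} {k : ℕ} (h : Gᶜ.CliqueFree (k + 1))
    (K : Finset V) (hK : ∀ x ∈ K, ∀ y ∈ K, x ≠ y → ¬ G.Adj x y) : K.card ≤ k :=
  card_le_of_cliqueFree h K fun x hx y hy hxy => by
    rw [SimpleGraph.compl_adj]
    exact ⟨hxy, hK x hx y hy hxy⟩

/-- Existence of a maximum independent set. -/
theorem exists_max_indep {V : Type*} [Fintype V] [DecidableEq V] (G : SimpleGraph V)
    [DecidableRel G.Adj] : ∃ S : Finset V, (∀ x ∈ S, ∀ y ∈ S, x ≠ y → ¬ G.Adj x y) ∧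
      ∀ J : Finset V, (∀ x ∈ J, ∀ y ∈ J, x ≠ y → ¬ G.Adj x y) → J.card ≤ S.card := by
  classical
  obtain ⟨S, hS, hmax⟩ := Finset.exists_max_image
    (Finset.univ.filter fun S : Finset V => ∀ x ∈ S, ∀ y ∈ S, x ≠ y → ¬ G.Adj x y)
    Finset.card ⟨∅, by simp⟩
  refine ⟨S, (Finset.mem_filter.1 hS).2, fun J hJ => hmax J ?_⟩
  exact Finset.mem_filter.2 ⟨Finset.mem_univ _, hJ⟩

/-- Traces on a maximum independent set are nonempty. -/
theorem tr_pos {V : Type*} [Fintype V] [DecidableEq V] (G : SimpleGraph V)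
    [DecidableRel G.Adj] (S : Finset V) (hS : ∀ x ∈ S, ∀ y ∈ S, x ≠ y → ¬ G.Adj x y)
    (hmax : ∀ J : Finset V, (∀ x ∈ J, ∀ y ∈ J, x ≠ y → ¬ G.Adj x y) → J.card ≤ S.card)
    (v : V) : 1 ≤ (tr G S v).card := by
  by_contra hc
  have h0 : tr G S v = ∅ := by
    rw [← Finset.card_eq_zero]
    omega
  have hnot : ∀ u ∈ S, u ≠ v ∧ ¬ G.Adj v u := by
    intro u hu
    by_contra h
    have : u ∈ tr G S v := by
      unfold tr
      rw [Finset.mem_filter]
      refine ⟨hu, ?_⟩
      by_contra h'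
      push Not at h'
      exact h h'
    rw [h0] at this
    simp at this
  have hvS : v ∉ S := fun h => (hnot v h).1 rfl
  have := hmax (insert v S) (by
    intro x hx y hy hxy
    rw [Finset.mem_insert] at hx hy
    rcases hx with rfl | hx
    · rcases hy with rfl | hy
      · exact absurd rfl hxy
      · exact (hnot y hy).2
    · rcases hy with rfl | hy
      · exact fun h => (hnot x hx).2 h.symm
      · exact hS x hx y hy hxy)
  rw [Finset.card_insert_of_notMem hvS] at this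
  omega

theorem big_k (k n : ℕ) (hk : 25 ≤ k) (h : 2 ^ k < (n + 1) ^ 2) : 84 * k ≤ n := by
  have h1 : (84 * k + 1) ^ 2 ≤ 2 ^ k := by
    clear h
    induction k, hk using Nat.le_induction with
    | base => norm_num
    | succ k hk ih =>
      rw [pow_succ 2 k]
      nlinarith
  by_contra hc
  push Not at hc
  have : (n + 1) ^ 2 ≤ (84 * k + 1) ^ 2 := Nat.pow_le_pow_left (by omega) 2
  omega

theorem small_k (k n : ℕ) (hk : 4 ≤ k) (hk' : k ≤ 24) (h : n * (25 - k) ≤ 24 * (k - 1)) :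
    (n + 1) ^ 2 ≤ 2 ^ k := by
  have key : ∀ c : ℕ, n ≤ c → (n + 1) ^ 2 ≤ (c + 1) ^ 2 := fun c hc =>
    Nat.pow_le_pow_left (by omega) 2
  interval_cases k
  · exact (key 3 (by omega)).trans (by norm_num)
  · exact (key 4 (by omega)).trans (by norm_num)
  · exact (key 6 (by omega)).trans (by norm_num)
  · exact (key 8 (by omega)).trans (by norm_num)
  · exact (key 9 (by omega)).trans (by norm_num)
  · exact (key 12 (by omega)).trans (by norm_num)
  · exact (key 14 (by omega)).trans (by norm_num)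
  · exact (key 17 (by omega)).trans (by norm_num)
  · exact (key 20 (by omega)).trans (by norm_num)
  · exact (key 24 (by omega)).trans (by norm_num)
  · exact (key 28 (by omega)).trans (by norm_num)
  · exact (key 33 (by omega)).trans (by norm_num)
  · exact (key 40 (by omega)).trans (by norm_num)
  · exact (key 48 (by omega)).trans (by norm_num)
  · exact (key 58 (by omega)).trans (by norm_num)
  · exact (key 72 (by omega)).trans (by norm_num)
  · exact (key 91 (by omega)).trans (by norm_num)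
  · exact (key 120 (by omega)).trans (by norm_num)
  · exact (key 168 (by omega)).trans (by norm_num)
  · exact (key 264 (by omega)).trans (by norm_num)
  · exact (key 552 (by omega)).trans (by norm_num)

/-- The final numerical contradiction. -/
theorem numeric (k n : ℕ) (hk : 25 ≤ k) (h : 2 ^ k < (n + 1) ^ 2) (lam : ℝ)
    (hl0 : 0 ≤ lam) (hl : Real.exp lam = 529)
    (hn : (n : ℝ) * Real.exp (-(lam * (((k : ℝ) - 1) * (1 / 24 + 1 / n)))) ≤
      (24 / 23) ^ (2 * k - 1)) : False := by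
  have hnk := big_k k n hk h
  obtain ⟨j, rfl⟩ : ∃ j, k = j + 1 := ⟨k - 1, by omega⟩
  have hn0 : (0 : ℝ) < n := by
    have : 0 < n := by omega
    exact_mod_cast this
  have hn1 : (84 : ℝ) * (j + 1) ≤ n := by exact_mod_cast hnk
  have hj0 : (0 : ℝ) ≤ j := Nat.cast_nonneg j
  have e1 : ((j + 1 : ℕ) : ℝ) - 1 = j := by push_cast; ring
  rw [e1] at hn
  -- solve for n
  have h1 : (n : ℝ) ≤ Real.exp (lam * (j * (1 / 24 + 1 / n))) * (24 / 23) ^ (2 * (j + 1) - 1) := by
    have h2 := mul_le_mul_of_nonneg_left hn (Real.exp_pos (lam * (j * (1 / 24 + 1 / (n : ℝ))))).le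
    have h3 : Real.exp (lam * (j * (1 / 24 + 1 / (n : ℝ)))) *
        (n * Real.exp (-(lam * (j * (1 / 24 + 1 / (n : ℝ)))))) = n := by
      rw [mul_left_comm, ← Real.exp_add, add_neg_cancel, Real.exp_zero, mul_one]
    rw [h3] at h2
    exact h2
  have h2 : (n : ℝ) ^ 24 ≤ (Real.exp (lam * (j * (1 / 24 + 1 / n)))) ^ 24 *
      ((24 / 23) ^ (2 * (j + 1) - 1)) ^ 24 := by
    rw [← mul_pow]
    exact pow_le_pow_left₀ hn0.le h1 24
  have h3 : (Real.exp (lam * (j * (1 / 24 + 1 / (n : ℝ))))) ^ 24 =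
      529 ^ j * Real.exp (24 * lam * j / n) := by
    rw [← Real.exp_nat_mul, ← hl, ← Real.exp_nat_mul, ← Real.exp_add]
    congr 1
    push_cast
    ring
  have hlam : lam ≤ 7 := by
    have h4 : lam = Real.log 529 := by rw [← hl, Real.log_exp]
    rw [h4]
    have h5 : Real.log 529 ≤ Real.log (2 ^ 10) := Real.log_le_log (by norm_num) (by norm_num)
    rw [Real.log_pow] at h5
    have h6 := Real.log_two_lt_d9
    push_cast at h5
    linarith
  have h4 : Real.exp (24 * lam * j / n) ≤ 8 := by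
    have h5 : 24 * lam * j / n ≤ 2 := by
      rw [div_le_iff₀ hn0]
      nlinarith [mul_le_mul_of_nonneg_right hlam hj0]
    have h6 : Real.exp 2 ≤ 8 := by
      have h7 : Real.exp 2 = Real.exp 1 * Real.exp 1 := by
        rw [← Real.exp_add]
        norm_num
      have h8 := Real.exp_one_lt_d9
      have h9 := Real.exp_pos 1
      rw [h7]
      nlinarith
    exact (Real.exp_le_exp.2 h5).trans h6
  have h5 : (((24 : ℝ) / 23) ^ (2 * (j + 1) - 1)) ^ 24 = (24 / 23) ^ 24 * ((24 / 23) ^ 48) ^ j := by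
    rw [← pow_mul, ← pow_mul, ← pow_add]
    congr 1
    omega
  rw [h3, h5] at h2
  have h6 : (529 : ℝ) ^ j * ((24 / 23) ^ 48) ^ j ≤ 4096 ^ j := by
    rw [← mul_pow]
    exact pow_le_pow_left₀ (by positivity) (by norm_num) j
  have h7 : (n : ℝ) ^ 24 ≤ 24 * 4096 ^ j := by
    have h8 : ((24 : ℝ) / 23) ^ 24 ≤ 3 := by norm_num
    calc (n : ℝ) ^ 24 ≤ 529 ^ j * Real.exp (24 * lam * j / n) *
          ((24 / 23) ^ 24 * ((24 / 23) ^ 48) ^ j) := h2
      _ = (529 ^ j * ((24 / 23) ^ 48) ^ j) * (Real.exp (24 * lam * j / n) * (24 / 23) ^ 24) := by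
          ring
      _ ≤ 4096 ^ j * (8 * 3) := by
          refine mul_le_mul h6 ?_ (by positivity) (by positivity)
          exact mul_le_mul h4 h8 (by positivity) (by norm_num)
      _ = 24 * 4096 ^ j := by ring
  have h8 : (4096 : ℝ) ^ (j + 1) < (n + 1 : ℝ) ^ 24 := by
    have h9 : (2 : ℝ) ^ (j + 1) < (n + 1 : ℝ) ^ 2 := by exact_mod_cast h
    have h10 := pow_lt_pow_left₀ h9 (by positivity) (n := 12) (by norm_num)
    calc (4096 : ℝ) ^ (j + 1) = (2 ^ (j + 1)) ^ 12 := by
          rw [← pow_mul, mul_comm, pow_mul]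
          norm_num
      _ < ((n + 1 : ℝ) ^ 2) ^ 12 := h10
      _ = (n + 1 : ℝ) ^ 24 := by rw [← pow_mul]
  have h9 : (n + 1 : ℝ) ^ 24 ≤ 2 * n ^ 24 := by
    have h11 : (25 : ℝ) ≤ (j : ℝ) + 1 := by exact_mod_cast hk
    have h10 : (n + 1 : ℝ) ≤ 101 / 100 * n := by linarith
    calc (n + 1 : ℝ) ^ 24 ≤ (101 / 100 * n) ^ 24 := pow_le_pow_left₀ (by positivity) h10 24
      _ = (101 / 100) ^ 24 * n ^ 24 := by rw [mul_pow]
      _ ≤ 2 * n ^ 24 := mul_le_mul_of_nonneg_right (by norm_num) (by positivity)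
  have h10 : (0 : ℝ) < 4096 ^ j := by positivity
  rw [pow_succ] at h8
  linarith

/-- Every Ramsey-critical `(k+1,k)`-graph has a vertex of degree at least `N / 24`. -/
theorem main (k : ℕ) (hk : 2 ≤ k) (N : ℕ) (hN : IsLeast (RSet k) N)
    (G : SimpleGraph (Fin (N - 1))) (h1 : G.CliqueFree (k + 1)) (h2 : Gᶜ.CliqueFree k) :
    ∃ v : Fin (N - 1), (N : ℝ) / 24 ≤ ((G.neighborSet v).ncard : ℝ) := by
  classical
  by_contra hc
  push Not at hc
  have hkN := k_lt hk hN
  obtain ⟨n, rfl⟩ : ∃ n, N = n + 1 := ⟨N - 1, by omega⟩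
  have e0 : n + 1 - 1 = n := rfl
  change ∀ v : Fin n, _ at hc
  have hn0 : (0 : ℝ) < n := by
    have : 0 < n := by omega
    exact_mod_cast this
  set D : ℝ := n / 24 + 1 with hD
  have hdeg : ∀ v : Fin n, ((G.neighborFinset v).card : ℝ) + 1 ≤ D := by
    intro v
    have h3 := hc v
    have h4 : (G.neighborSet v).ncard = (G.neighborFinset v).card := by
      rw [← Nat.card_coe_set_eq, Nat.card_eq_fintype_card, SimpleGraph.neighborFinset,
        Set.toFinset_card]
    rw [h4] at h3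
    have h5 : 24 * ((G.neighborFinset v).card : ℝ) < ((n + 1 : ℕ) : ℝ) := by
      rw [lt_div_iff₀ (by norm_num)] at h3
      linarith
    have h6 : 24 * (G.neighborFinset v).card < n + 1 := by exact_mod_cast h5
    have h7 : 24 * (G.neighborFinset v).card ≤ n := by omega
    have h8 : 24 * ((G.neighborFinset v).card : ℝ) ≤ n := by exact_mod_cast h7
    rw [hD]
    linarith
  obtain ⟨S, hS, hmax⟩ := exists_max_indep G
  obtain ⟨k', rfl⟩ : ∃ k', k = k' + 1 := ⟨k - 1, by omega⟩
  have hSk : S.card ≤ k' := indep_card_le h2 S hS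
  have hSk' : (S.card : ℝ) ≤ k' := by exact_mod_cast hSk
  have hsum := sum_tr G S D hdeg
  have hD0 : 0 ≤ D := by rw [hD]; positivity
  have hsum' : ∑ v : Fin n, ((tr G S v).card : ℝ) ≤ k' * D :=
    hsum.trans (mul_le_mul_of_nonneg_right hSk' hD0)
  rcases Nat.lt_or_ge (k' + 1) 25 with hlt | hge
  · -- small k
    have h3 : (n : ℝ) ≤ ∑ v : Fin n, ((tr G S v).card : ℝ) := by
      calc (n : ℝ) = ∑ _v : Fin n, (1 : ℝ) := by simp
        _ ≤ _ := Finset.sum_le_sum fun v _ => by exact_mod_cast tr_pos G S hS hmax v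
    have h4 : (n : ℝ) ≤ k' * (n / 24 + 1) := h3.trans hsum'
    have h5 : n * 24 ≤ k' * n + 24 * k' := by
      have : (n : ℝ) * 24 ≤ k' * n + 24 * k' := by linarith
      exact_mod_cast this
    rcases Nat.lt_or_ge (k' + 1) 4 with hlt' | hge'
    · have h6 : k' < 3 := by omega
      have h7 : 1 ≤ k' := by omega
      interval_cases k'
      · omega
      · omega
    · have h6 : n * (25 - (k' + 1)) ≤ 24 * (k' + 1 - 1) := by
        have h7 : 25 - (k' + 1) = 24 - k' := by omega
        rw [h7, Nat.mul_sub]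
        have h8 : k' + 1 - 1 = k' := rfl
        rw [h8, mul_comm n k']
        omega
      have h7 := small_k (k' + 1) n hge' (by omega) h6
      have h8 := sq_gt (by omega) hN
      omega
  · -- large k
    set lam : ℝ := Real.log 529 with hlam
    have hl : Real.exp lam = 529 := Real.exp_log (by norm_num)
    have hl0 : 0 ≤ lam := Real.log_nonneg (by norm_num)
    have htr := trace_ineq G (23 / 24) (1 / 24) (by norm_num) (by norm_num) (by norm_num)
      (1 / 529) (by norm_num) (by norm_num) (k' + 1)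
      (fun K hK => card_le_of_cliqueFree h1 K hK) S hS hmax
    have e1 : (1 : ℝ) / (23 / 24) = 24 / 23 := by norm_num
    have e2 : (1 : ℝ) - 1 / 529 + 1 / 529 / (1 / 24) = 24 / 23 := by norm_num
    rw [e1, e2, ← pow_add] at htr
    have e3 : ∀ t : ℕ, (1 / 529 : ℝ) ^ t = Real.exp (-(lam * (t : ℝ))) := by
      intro t
      rw [Real.exp_neg, mul_comm, Real.exp_nat_mul, hl, one_div, inv_pow]
    simp_rw [e3] at htr
    have hconv := exp_sum_ge (fun v : Fin n => ((tr G S v).card : ℝ)) (n : ℝ) lam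
      ((((k' + 1 : ℕ) : ℝ) - 1) * (1 / 24 + 1 / n)) hl0 (by simp) (by
        refine hsum'.trans (le_of_eq ?_)
        rw [hD]
        push_cast
        field_simp
        ring)
    have htr' : ∑ i : Fin n, Real.exp (-(lam * ((tr G S i).card : ℝ))) + 1 ≤
        (24 / 23) ^ (k' + 1 + S.card) := htr
    have hpow : ((24 : ℝ) / 23) ^ (k' + 1 + S.card) ≤ (24 / 23) ^ (2 * (k' + 1) - 1) :=
      pow_le_pow_right₀ (by norm_num) (by omega)
    have h8 := sq_gt (by omega) hN
    exact numeric (k' + 1) n hge h8 lam hl0 hl (by linarith)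

end Pool.Agent.Helper22.RD
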